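import Mathlib

/-!
Lower bound for colourings of `{1,2,3}^d` without monochromatic lines (nested faces and a
pair pigeonhole).
-/

set_option autoImplicit false
open Finset

namespace Pool.Agent.Helper674.CubeLines

/-- vertex coordinates -/
def vt (b : Bool) : Fin 3 := if b then 2 else 0

/-- the smallest face of the cube containing the vertices `v` and `w` -/
def sp {n : ℕ} (v w : Fin n → Bool) : Fin n → Fin 3 :=
  fun i => if v i = w i then vt (v i) else 1

/-- `P, Q, R` are the three points (in this order) of a line -/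
def IsLine {n : ℕ} (P Q R : Fin n → Fin 3) : Prop :=
  P ≠ R ∧ ∀ i, (P i : ℕ) + (R i : ℕ) = 2 * (Q i : ℕ)

lemma sp_self {n : ℕ} (v : Fin n → Bool) : sp v v = fun i => vt (v i) := by
  funext i; simp [sp]

lemma vt_inj {a b : Bool} (h : vt a = vt b) : a = b := by
  cases a <;> cases b <;> simp [vt] at h ⊢

lemma isLine_sp {n : ℕ} {v w : Fin n → Bool} (h : v ≠ w) :
    IsLine (sp v v) (sp v w) (sp w w) := by
  refine ⟨fun h' => h ?_, fun i => ?_⟩
  · funext i
    have := congrFun h' i
    simp only [sp, if_true] at this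
    exact vt_inj this
  · simp only [sp, if_true]
    by_cases hvw : v i = w i
    · rw [if_pos hvw, hvw]; ring
    · rw [if_neg hvw]
      cases hv : v i <;> cases hw : w i <;> simp_all [vt]

lemma sp_append {n m : ℕ} (x y : Fin n → Bool) (s t : Fin m → Bool) :
    sp (Fin.append x s) (Fin.append y t) = Fin.append (sp x y) (sp s t) := by
  funext i
  refine Fin.addCases (fun i => ?_) (fun i => ?_) i <;> simp [sp]

lemma append_ne_of_right {n m : ℕ} {α : Type*} (x y : Fin n → α) {s t : Fin m → α} (h : s ≠ t) :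
    Fin.append x s ≠ Fin.append y t := by
  intro h'
  apply h
  funext i
  have := congrFun h' (Fin.natAdd n i)
  simpa using this

lemma isLine_append {n m : ℕ} {P Q R : Fin n → Fin 3} (h : IsLine P Q R) (w : Fin m → Fin 3) :
    IsLine (Fin.append P w) (Fin.append Q w) (Fin.append R w) := by
  refine ⟨fun h' => h.1 ?_, fun i => ?_⟩
  · funext i
    have := congrFun h' (Fin.castAdd m i)
    simpa using this
  · refine Fin.addCases (fun i => ?_) (fun i => ?_) i
    · simpa using h.2 i
    · simp; ring

/-- pigeonhole for pairs -/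
lemma pair_pigeon {α β : Type*} [Fintype α] [Fintype β] [DecidableEq α] [DecidableEq β]
    (A : Finset (α × β)) (hα : 0 < Fintype.card α) (h : 2 * Fintype.card α ≤ A.card) :
    ∃ s t : β, s ≠ t ∧ 2 * Fintype.card α ≤
      (univ.filter (fun x : α => (x, s) ∈ A ∧ (x, t) ∈ A)).card * (Fintype.card β) ^ 2 := by
  classical
  set N : α → ℕ := fun x => (univ.filter (fun s : β => (x, s) ∈ A)).card with hN
  have hsum : ∑ x : α, N x = A.card := by
    have : A.card = ∑ x : α, (A.filter (fun p => p.1 = x)).card :=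
      card_eq_sum_card_fiberwise (fun p _ => mem_univ _)
    rw [this]
    refine sum_congr rfl fun x _ => ?_
    refine card_bij (fun s _ => (x, s)) ?_ ?_ ?_
    · intro s hs; simpa using hs
    · intro s _ t _ hst; simpa using hst
    · rintro ⟨y, s⟩ hp
      simp only [mem_filter] at hp
      obtain ⟨h1, rfl⟩ := hp
      exact ⟨s, by simpa using h1, rfl⟩
  set g : β × β → ℕ := fun p => (univ.filter (fun x : α => (x, p.1) ∈ A ∧ (x, p.2) ∈ A)).card
    with hg
  have hdouble : ∑ p ∈ (univ : Finset β).offDiag, g p = ∑ x : α, (N x) * (N x - 1) := by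
    have h1 : ∀ p, g p = ∑ x : α, if (x, p.1) ∈ A ∧ (x, p.2) ∈ A then 1 else 0 := by
      intro p; rw [hg]; simp only [card_filter]
    simp_rw [h1]
    rw [sum_comm]
    refine sum_congr rfl fun x _ => ?_
    rw [← card_filter]
    have : ((univ : Finset β).offDiag.filter (fun p : β × β => (x, p.1) ∈ A ∧ (x, p.2) ∈ A))
        = (univ.filter (fun s : β => (x, s) ∈ A)).offDiag := by
      ext ⟨s, t⟩
      simp only [mem_filter, mem_offDiag, mem_univ, true_and]
      tauto
    rw [this, offDiag_card]
    rw [hN]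
    simp only
    rw [Nat.mul_sub, mul_one]
  have hbig : 2 * Fintype.card α ≤ ∑ p ∈ (univ : Finset β).offDiag, g p := by
    rw [hdouble]
    have h2 : ∀ a : ℕ, 2 * a ≤ a * (a - 1) + 2 := by
      intro a
      rcases a with _ | _ | a
      · omega
      · omega
      · have : (a + 1 + 1) * (a + 1 + 1 - 1) = (a + 2) * (a + 1) := by simp
        rw [this]; nlinarith
    have h3 : ∑ x : α, 2 * N x ≤ ∑ x : α, (N x * (N x - 1) + 2) :=
      sum_le_sum fun x _ => h2 _
    rw [← mul_sum, hsum, sum_add_distrib, sum_const, card_univ, smul_eq_mul] at h3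
    omega
  by_contra hcon
  push Not at hcon
  have hne : ((univ : Finset β).offDiag).Nonempty := by
    by_contra h0
    rw [not_nonempty_iff_eq_empty] at h0
    rw [h0, sum_empty] at hbig
    omega
  have hlt : ∑ p ∈ (univ : Finset β).offDiag, g p * (Fintype.card β) ^ 2
      < ∑ p ∈ (univ : Finset β).offDiag, 2 * Fintype.card α := by
    refine sum_lt_sum_of_nonempty hne fun p hp => ?_
    rw [mem_offDiag] at hp
    exact hcon p.1 p.2 hp.2.2
  rw [← sum_mul, sum_const, offDiag_card, card_univ, smul_eq_mul] at hlt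
  have h5 : (Fintype.card β * Fintype.card β - Fintype.card β) ≤ (Fintype.card β) ^ 2 := by
    rw [pow_two]; exact Nat.sub_le _ _
  have h6 : (Fintype.card β * Fintype.card β - Fintype.card β) * (2 * Fintype.card α)
      ≤ (Fintype.card β) ^ 2 * (2 * Fintype.card α) := Nat.mul_le_mul_right _ h5
  have h7 : (2 * Fintype.card α) * (Fintype.card β) ^ 2
      ≤ (∑ p ∈ (univ : Finset β).offDiag, g p) * (Fintype.card β) ^ 2 :=
    Nat.mul_le_mul_right _ hbig
  have h8 : (Fintype.card β) ^ 2 * (2 * Fintype.card α)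
    = (2 * Fintype.card α) * (Fintype.card β) ^ 2 := by ring
  omega

/-- the recursive bound -/
def T (ρ : ℕ) : ℕ → ℕ → ℕ
  | 0, _ => 0
  | r + 1, a => (a + ρ + 1) + T ρ r (2 * a + 2 * ρ + 1)

lemma T_le (ρ : ℕ) : ∀ r a, T ρ r a + (a + 2 * ρ + 1) ≤ 2 ^ r * (a + 2 * ρ + 1) := by
  intro r
  induction r with
  | zero => intro a; simp [T]
  | succ r ih =>
    intro a
    have := ih (2 * a + 2 * ρ + 1)
    have e : 2 * a + 2 * ρ + 1 + 2 * ρ + 1 = 2 * (a + 2 * ρ + 1) := by ring
    rw [e] at this
    have e2 : 2 ^ (r + 1) * (a + 2 * ρ + 1) = 2 ^ r * (2 * (a + 2 * ρ + 1)) := by ring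
    rw [e2]
    simp only [T]
    omega

lemma T_mono_left (ρ r a : ℕ) : a + ρ + 1 ≤ T ρ (r + 1) a := by
  simp only [T]; omega

theorem main {K : Type*} [Fintype K] [DecidableEq K] (ρ : ℕ) (hρ : Fintype.card K ≤ 2 ^ ρ) :
    ∀ (r a n : ℕ) (c : (Fin n → Fin 3) → K)
      (_ : ∀ P Q R, IsLine P Q R → ¬ (c P = c Q ∧ c Q = c R))
      (U : Finset K) (_ : Fintype.card K ≤ U.card + r)
      (A : Finset (Fin n → Bool)) (_ : 2 ^ n ≤ A.card * 2 ^ a)
      (_ : ∀ κ ∈ U, ∀ v ∈ A, ∀ w ∈ A, c (sp v w) ≠ κ), n < T ρ r a := by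
  intro r
  induction r with
  | zero =>
    intro a n c hc U hU A hA hAU
    exfalso
    have hUu : U = univ := by
      rw [← card_eq_iff_eq_univ]
      exact le_antisymm (card_le_univ U) (by simpa using hU)
    have hApos : 0 < A.card := by
      by_contra h0
      have h0' : A.card = 0 := by omega
      rw [h0'] at hA
      simp at hA
    obtain ⟨v, hv⟩ := card_pos.1 hApos
    exact hAU (c (sp v v)) (by rw [hUu]; exact mem_univ _) v hv v hv rfl
  | succ r ih =>
    intro a n c hc U hU A hA hAU
    by_cases hn : n < a + ρ + 1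
    · exact lt_of_lt_of_le hn (T_mono_left ρ r a)
    push Not at hn
    obtain ⟨m, hm⟩ : ∃ m, m = a + ρ + 1 := ⟨_, rfl⟩
    rw [← hm] at hn
    obtain ⟨n', rfl⟩ : ∃ n', n = n' + m := ⟨n - m, by omega⟩
    -- majority colour
    obtain ⟨κ, hκ⟩ : ∃ κ : K, A.card ≤ (A.filter (fun v => c (sp v v) = κ)).card * 2 ^ ρ := by
      by_contra hcon
      push Not at hcon
      have hsum : A.card = ∑ κ : K, (A.filter (fun v => c (sp v v) = κ)).card :=
        card_eq_sum_card_fiberwise (fun v _ => mem_univ _)
      have hApos : 0 < A.card := by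
        by_contra h0
        have h0' : A.card = 0 := by omega
        rw [h0'] at hA
        simp at hA
      have hKne : (univ : Finset K).Nonempty := by
        obtain ⟨v, hv⟩ := card_pos.1 hApos
        exact ⟨c (sp v v), mem_univ _⟩
      have h1 : ∑ κ : K, (A.filter (fun v => c (sp v v) = κ)).card * 2 ^ ρ
          < ∑ κ : K, A.card := sum_lt_sum_of_nonempty hKne fun κ _ => hcon κ
      rw [← sum_mul, ← hsum, sum_const, card_univ, smul_eq_mul] at h1
      have h2 : Fintype.card K * A.card ≤ 2 ^ ρ * A.card := Nat.mul_le_mul_right _ hρ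
      have h3 : 2 ^ ρ * A.card = A.card * 2 ^ ρ := by ring
      omega
    set A' := A.filter (fun v => c (sp v v) = κ) with hA'
    have hcard' : 2 ^ (n' + m) ≤ A'.card * 2 ^ (a + ρ) := by
      calc 2 ^ (n' + m) ≤ A.card * 2 ^ a := hA
        _ ≤ (A'.card * 2 ^ ρ) * 2 ^ a := Nat.mul_le_mul_right _ hκ
        _ = A'.card * 2 ^ (a + ρ) := by rw [pow_add]; ring
    -- pairs
    let B : Finset ((Fin n' → Bool) × (Fin m → Bool)) :=
      univ.filter (fun p => Fin.append p.1 p.2 ∈ A')
    have hB : B.card = A'.card := by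
      refine card_bij (fun p _ => Fin.append p.1 p.2) ?_ ?_ ?_
      · intro p hp; simpa [B] using hp
      · rintro ⟨x, s⟩ _ ⟨y, t⟩ _ h
        simp only at h
        refine Prod.ext ?_ ?_
        · funext i
          have := congrFun h (Fin.castAdd m i)
          simpa using this
        · funext i
          have := congrFun h (Fin.natAdd n' i)
          simpa using this
      · intro v hv
        refine ⟨(fun i => v (Fin.castAdd m i), fun i => v (Fin.natAdd n' i)), ?_, ?_⟩
        · simp only [B, mem_filter, mem_univ, true_and]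
          have : Fin.append (fun i => v (Fin.castAdd m i)) (fun i => v (Fin.natAdd n' i)) = v := by
            funext i
            refine Fin.addCases (fun i => ?_) (fun i => ?_) i <;> simp
          rw [this]; exact hv
        · funext i
          refine Fin.addCases (fun i => ?_) (fun i => ?_) i <;> simp
    have hBcard : 2 * Fintype.card (Fin n' → Bool) ≤ B.card := by
      rw [hB]
      have e1 : Fintype.card (Fin n' → Bool) = 2 ^ n' := by simp
      rw [e1]
      have e2 : 2 ^ (n' + m) = (2 * 2 ^ n') * 2 ^ (a + ρ) := by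
        rw [hm]; ring
      rw [e2] at hcard'
      exact Nat.le_of_mul_le_mul_right hcard' (by positivity)
    obtain ⟨s, t, hst, hpair⟩ := pair_pigeon B (by simp) hBcard
    set A2 : Finset (Fin n' → Bool) :=
      univ.filter (fun x : Fin n' → Bool => (x, s) ∈ B ∧ (x, t) ∈ B) with hA2
    have hA2mem : ∀ x ∈ A2, Fin.append x s ∈ A' ∧ Fin.append x t ∈ A' := by
      intro x hx
      simpa [hA2, B] using hx
    have hκU : κ ∉ U := by
      intro hκU
      have hpos : 0 < A'.card := by
        by_contra h0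
        have h0' : A'.card = 0 := by omega
        rw [h0'] at hcard'
        simp at hcard'
      obtain ⟨v, hv⟩ := card_pos.1 hpos
      rw [hA', mem_filter] at hv
      exact hAU κ hκU v hv.1 v hv.1 hv.2
    have hrec := ih (2 * a + 2 * ρ + 1) n' (fun z => c (Fin.append z (sp s t)))
      (fun P Q R hl => hc _ _ _ (isLine_append hl (sp s t)))
      (insert κ U) (by rw [card_insert_of_notMem hκU]; omega) A2
      (by
        have e1 : Fintype.card (Fin n' → Bool) = 2 ^ n' := by simp
        have e2 : Fintype.card (Fin m → Bool) = 2 ^ m := by simp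
        rw [e1, e2] at hpair
        have e3 : A2.card * (2 ^ m) ^ 2 = 2 * (A2.card * 2 ^ (2 * a + 2 * ρ + 1)) := by
          rw [hm]; ring
        rw [e3] at hpair
        omega)
      (by
        intro κ' hκ' v hv w hw
        show c (Fin.append (sp v w) (sp s t)) ≠ κ'
        rw [← sp_append]
        obtain ⟨hvs, hvt⟩ := hA2mem v hv
        obtain ⟨hws, hwt⟩ := hA2mem w hw
        rw [mem_insert] at hκ'
        rcases hκ' with rfl | hκ'
        · intro h
          rw [hA', mem_filter] at hvs hwt
          exact hc _ _ _ (isLine_sp (append_ne_of_right v w hst))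
            ⟨hvs.2.trans h.symm, h.trans hwt.2.symm⟩
        · rw [hA', mem_filter] at hvs hwt
          exact hAU κ' hκ' _ hvs.1 _ hwt.1)
    simp only [T]
    omega

/-- Every `k`-colouring of `{0,1,2}^d` with `d ≥ (2^k - 1)(2⌈log₂ k⌉ + 1)` has a monochromatic
line. -/
theorem exists_line (d k : ℕ) (hd : (2 ^ k - 1) * (2 * Nat.clog 2 k + 1) ≤ d)
    (χ : (Fin d → Fin 3) → Fin k) :
    ∃ P Q R, IsLine P Q R ∧ χ P = χ Q ∧ χ Q = χ R := by
  by_contra hcon
  push Not at hcon
  have h := main (K := Fin k) (Nat.clog 2 k)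
    (by simpa using Nat.le_pow_clog (by norm_num) k) k 0 d χ
    (fun P Q R hl h => hcon P Q R hl h.1 h.2) ∅ (by simp) univ (by simp) (by simp)
  have h2 := T_le (Nat.clog 2 k) k 0
  have h3 : (2 ^ k - 1) * (2 * Nat.clog 2 k + 1) + (2 * Nat.clog 2 k + 1)
      = 2 ^ k * (2 * Nat.clog 2 k + 1) := by
    have : 1 ≤ 2 ^ k := Nat.one_le_two_pow
    obtain ⟨q, hq⟩ : ∃ q, 2 ^ k = q + 1 := ⟨2 ^ k - 1, by omega⟩
    rw [hq]; simp; ring
  simp only [zero_add] at h2
  omega

end Pool.Agent.Helper674.CubeLines
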